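import Mathlib

/-!
# MP_1adc52_al : product intersection sets of infinite (torsion) groups

Every infinite group `G` has an asymptotically strictly decreasing sequence `(A_q)` with
`2 ∈ H(A_q)` and `3 ∉ H(A_q)`.
-/

open scoped Pointwise

namespace Pool.Agent.Results.MP_1adc52_al.TwoNotThree

/-- The product intersection set `H(A_q)` (the sequence is indexed by `q = 0, 1, 2, …`). -/
def prodInt {G : Type*} [Group G] (A : ℕ → Set G) : Set ℕ :=
  {h | 1 ≤ h ∧ (⋂ q, A q) ^ h = ⋂ q, (A q) ^ h}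

/-- Asymptotically strictly decreasing sequences. -/
def AsympStrictDec {G : Type*} (A : ℕ → Set G) : Prop :=
  (∀ q, A (q + 1) ⊆ A q) ∧ ∀ N, ∃ q, N ≤ q ∧ A (q + 1) ≠ A q

/-- The family `H*_ℕ(G)`. -/
def HStar (G : Type*) [Group G] : Set (Set ℕ) :=
  {X | ∃ A : ℕ → Set G, AsympStrictDec A ∧ X = prodInt A}

/-- The abstract construction. -/
theorem construct {G : Type*} [Group G] (f g : G) (hg : g ≠ f * f * f)
    (hch : ∀ E F : Set G, E.Finite → F.Finite → ∃ T : Set G, T.Finite ∧
      (∃ a ∈ insert f T, ∃ b ∈ insert f T, ∃ c ∈ insert f T, a * b * c = g) ∧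
      (∀ t ∈ T, t ∉ F) ∧
      (∀ t ∈ T, ∀ e ∈ E ∪ T, (t * e ∈ F → t * e = f * f) ∧ (e * t ∈ F → e * t = f * f))) :
    ∃ A : ℕ → Set G, AsympStrictDec A ∧ 2 ∈ prodInt A ∧ 3 ∉ prodInt A := by
  classical
  choose! T hTfin hTg hTF hTE using hch
  -- the sets of elements used so far
  let E : ℕ → Set G := fun n => Nat.rec {f} (fun _ S => S ∪ T S (S ∪ S * S)) n
  have E0 : E 0 = {f} := rfl
  have Es : ∀ n, E (n + 1) = E n ∪ T (E n) (E n ∪ E n * E n) := fun n => rfl
  have Efin : ∀ n, (E n).Finite := by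
    intro n
    induction n with
    | zero => rw [E0]; exact Set.finite_singleton f
    | succ n ih =>
      rw [Es]
      exact ih.union (hTfin _ _ ih (ih.union (ih.mul ih)))
  have Ffin : ∀ n, (E n ∪ E n * E n).Finite := fun n => (Efin n).union ((Efin n).mul (Efin n))
  let U : ℕ → Set G := fun n => T (E n) (E n ∪ E n * E n)
  have Emono : ∀ n m, n ≤ m → E n ⊆ E m := by
    intro n m h
    induction h with
    | refl => exact subset_rfl
    | step _ ih => exact ih.trans (by rw [Nat.succ_eq_add_one, Es]; exact Set.subset_union_left)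
  have UE : ∀ n, U n ⊆ E (n + 1) := fun n => by rw [Es]; exact Set.subset_union_right
  have fE : ∀ n, f ∈ E n := fun n => Emono 0 n (Nat.zero_le n) (by rw [E0]; rfl)
  have Unot : ∀ n, ∀ t ∈ U n, t ∉ E n ∪ E n * E n := fun n t ht =>
    hTF _ _ (Efin n) (Ffin n) t ht
  have UnotE : ∀ n, ∀ t ∈ U n, t ∉ E n := fun n t ht h => Unot n t ht (Or.inl h)
  have Une : ∀ n, (U n).Nonempty := by
    intro n
    by_contra hno
    rw [Set.not_nonempty_iff_eq_empty] at hno
    obtain ⟨a, ha, b, hb, c, hc, habc⟩ := hTg _ _ (Efin n) (Ffin n)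
    have hU : T (E n) (E n ∪ E n * E n) = ∅ := hno
    rw [hU] at ha hb hc
    simp only [insert_empty_eq, Set.mem_singleton_iff] at ha hb hc
    subst ha; subst hb; subst hc
    exact hg habc.symm
  have Udis : ∀ n m, n < m → ∀ t ∈ U n, t ∉ U m := by
    intro n m hnm t ht hm
    exact UnotE m t hm (Emono (n + 1) m hnm (UE n ht))
  let A : ℕ → Set G := fun q => {x | x = f ∨ ∃ n, q ≤ n ∧ x ∈ U n}
  have fA : ∀ q, f ∈ A q := fun q => Or.inl rfl
  have UA : ∀ q n, q ≤ n → U n ⊆ A q := fun q n h x hx => Or.inr ⟨n, h, hx⟩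
  have hdec : AsympStrictDec A := by
    constructor
    · rintro q x (rfl | ⟨n, hn, hx⟩)
      · exact fA q
      · exact Or.inr ⟨n, by omega, hx⟩
    · intro N
      refine ⟨N, le_rfl, ?_⟩
      intro heq
      obtain ⟨t, ht⟩ := Une N
      have h1 : t ∈ A (N + 1) := by rw [heq]; exact UA N N le_rfl ht
      rcases h1 with rfl | ⟨n, hn, hx⟩
      · exact UnotE N t ht (fE N)
      · exact Udis N n (by omega) t ht hx
  have hint : (⋂ q, A q) = {f} := by
    ext x
    simp only [Set.mem_iInter, Set.mem_singleton_iff]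
    constructor
    · intro h
      by_contra hne
      rcases h 0 with h0 | ⟨n, _, hn⟩
      · exact hne h0
      · rcases h (n + 1) with h1 | ⟨m, hm, hm'⟩
        · exact hne h1
        · exact Udis n m (by omega) x hn hm'
    · rintro rfl q; exact fA q
  refine ⟨A, hdec, ⟨by norm_num, ?_⟩, ?_⟩
  · rw [hint]
    apply Set.Subset.antisymm
    · intro x hx
      rw [Set.mem_iInter]
      intro q
      exact Set.pow_subset_pow_left (by rw [Set.singleton_subset_iff]; exact fA q) hx
    · intro x hx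
      rw [Set.mem_iInter] at hx
      simp only [Set.singleton_pow, Set.mem_singleton_iff]
      by_contra hne
      rw [sq] at hne
      -- `x ∈ E N * E N` for some `N`
      have hA0 : ∀ s ∈ A 0, ∃ N, s ∈ E N := by
        rintro s (rfl | ⟨n, _, hn⟩)
        · exact ⟨0, fE 0⟩
        · exact ⟨n + 1, UE n hn⟩
      have h0 := hx 0
      rw [sq, Set.mem_mul] at h0
      obtain ⟨s, hs, t, ht, rfl⟩ := h0
      obtain ⟨N1, hN1⟩ := hA0 s hs
      obtain ⟨N2, hN2⟩ := hA0 t ht
      set N := max N1 N2 with hN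
      have hxE : ∀ m, N ≤ m → s * t ∈ E m ∪ E m * E m := by
        intro m hm
        refine Or.inr (Set.mul_mem_mul ?_ ?_)
        · exact Emono N1 m ((le_max_left _ _).trans hm) hN1
        · exact Emono N2 m ((le_max_right _ _).trans hm) hN2
      have hN' := hx N
      rw [sq, Set.mem_mul] at hN'
      obtain ⟨s', hs', t', ht', hst⟩ := hN'
      -- a dichotomy
      have hEsub : ∀ n m, N ≤ n → n ≤ m → U n ⊆ E m ∪ U m := by
        intro n m _ h
        rcases h.lt_or_eq with h | h
        · intro z hz; exact Or.inl (Emono (n + 1) m h (UE n hz))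
        · subst h; intro z hz; exact Or.inr hz
      rcases hs' with rfl | ⟨n, hn, hns⟩
      · rcases ht' with rfl | ⟨m, hm, hmt⟩
        · exact hne hst.symm
        · have := (hTE _ _ (Efin m) (Ffin m) t' hmt s' (Or.inl (fE m))).2
            (by rw [hst]; exact hxE m hm)
          exact hne (hst ▸ this)
      · rcases ht' with rfl | ⟨m, hm, hmt⟩
        · have := (hTE _ _ (Efin n) (Ffin n) s' hns t' (Or.inl (fE n))).1
            (by rw [hst]; exact hxE n hn)
          exact hne (hst ▸ this)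
        · rcases le_total n m with hnm | hnm
          · have := (hTE _ _ (Efin m) (Ffin m) t' hmt s' (hEsub n m hn hnm hns)).2
              (by rw [hst]; exact hxE m hm)
            exact hne (hst ▸ this)
          · have := (hTE _ _ (Efin n) (Ffin n) s' hns t' (hEsub m n hm hnm hmt)).1
              (by rw [hst]; exact hxE n hn)
            exact hne (hst ▸ this)
  · rintro ⟨_, h⟩
    rw [hint] at h
    have hgin : g ∈ ⋂ q, (A q) ^ 3 := by
      rw [Set.mem_iInter]
      intro q
      obtain ⟨a, ha, b, hb, c, hc, habc⟩ := hTg _ _ (Efin q) (Ffin q)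
      have hsub : insert f (T (E q) (E q ∪ E q * E q)) ⊆ A q := by
        rintro z (rfl | hz)
        · exact fA q
        · exact UA q q le_rfl hz
      rw [pow_succ, sq, ← habc]
      exact Set.mul_mem_mul (Set.mul_mem_mul (hsub ha) (hsub hb)) (hsub hc)
    rw [← h] at hgin
    simp only [Set.singleton_pow, Set.mem_singleton_iff] at hgin
    apply hg
    rw [hgin, pow_succ, sq]

/-- Case 1: an infinite commutative subgroup on which squaring is almost finite-to-one. -/
theorem case_comm_aux {G : Type*} [Group G] (V : Subgroup G)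
    (hcomm : ∀ x ∈ V, ∀ y ∈ V, x * y = y * x) (hinf : (V : Set G).Infinite)
    (hsq : ∀ F : Set G, F.Finite → {v : G | v ∈ V ∧ v * v ∈ F ∧ v * v ≠ 1}.Finite) :
    ∃ A : ℕ → Set G, AsympStrictDec A ∧ 2 ∈ prodInt A ∧ 3 ∉ prodInt A := by
  classical
  obtain ⟨g, hgV, hg1⟩ : ∃ g ∈ V, g ≠ 1 := by
    obtain ⟨g, hg, hg'⟩ := (hinf.sdiff (Set.finite_singleton (1 : G))).nonempty
    exact ⟨g, hg, by simpa using hg'⟩
  refine construct 1 g (by simpa using hg1) ?_
  intro E F hE hF
  set X : Set G := F ∪ (F * E⁻¹) ∪ (E⁻¹ * F) with hX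
  have hXfin : X.Finite := (hF.union (hF.mul hE.inv)).union (hE.inv.mul hF)
  set S : Set G := {v : G | v ∈ V ∧ v * v ∈ F ∧ v * v ≠ 1} with hS
  have hSfin : S.Finite := hsq F hF
  have hB1 : (X ∪ S ∪ (F⁻¹ * {g})).Finite :=
    (hXfin.union hSfin).union (hF.inv.mul (Set.finite_singleton g))
  obtain ⟨b, hbV, hb⟩ := (hinf.sdiff hB1).nonempty
  have hB2 : (X ∪ S ∪ (F⁻¹ * {g}) ∪ ({b⁻¹} * F) ∪ ((X ∪ S)⁻¹ * {g * b⁻¹})).Finite :=
    (hB1.union ((Set.finite_singleton _).mul hF)).union
      ((hXfin.union hSfin).inv.mul (Set.finite_singleton _))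
  obtain ⟨c, hcV, hc⟩ := (hinf.sdiff hB2).nonempty
  have hbV' : b ∈ V := hbV
  have hcV' : c ∈ V := hcV
  have hdV : g * b⁻¹ * c⁻¹ ∈ V := V.mul_mem (V.mul_mem hgV (V.inv_mem hbV)) (V.inv_mem hcV)
  set d : G := g * b⁻¹ * c⁻¹ with hd
  simp only [Set.mem_union, not_or] at hb hc
  obtain ⟨⟨hbX, hbS⟩, hbF⟩ := hb
  obtain ⟨⟨⟨⟨hcX, hcS⟩, hcF⟩, hcb⟩, hcd⟩ := hc
  have hdXS : d ∉ X ∪ S := by
    intro h
    apply hcd
    refine ⟨d⁻¹, Set.inv_mem_inv.mpr h, g * b⁻¹, rfl, ?_⟩
    rw [hd]; group
  have hdX : d ∉ X := fun h => hdXS (Or.inl h)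
  have hdS : d ∉ S := fun h => hdXS (Or.inr h)
  have hbc : b * c ∉ F := by
    intro h
    apply hcb
    exact ⟨b⁻¹, rfl, b * c, h, by group⟩
  have e1 : b * d = g * c⁻¹ := by
    rw [hd]
    have h1 : b * (g * b⁻¹ * c⁻¹) = (b * g) * b⁻¹ * c⁻¹ := by group
    rw [h1, hcomm b hbV' g hgV]; group
  have hbd : b * d ∉ F := by
    rw [e1]
    intro h
    apply hcF
    exact ⟨(g * c⁻¹)⁻¹, Set.inv_mem_inv.mpr h, g, rfl, by group⟩
  have e2 : c * d = g * b⁻¹ := by
    rw [hcomm c hcV' d hdV, hd]; group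
  have hcd' : c * d ∉ F := by
    rw [e2]
    intro h
    apply hbF
    exact ⟨(g * b⁻¹)⁻¹, Set.inv_mem_inv.mpr h, g, rfl, by group⟩
  have hXE : ∀ t, t ∉ X → t ∉ F ∧ ∀ e ∈ E, t * e ∉ F ∧ e * t ∉ F := by
    intro t ht
    refine ⟨fun h => ht (Or.inl (Or.inl h)), fun e he => ⟨fun h => ht (Or.inl (Or.inr ?_)),
      fun h => ht (Or.inr ?_)⟩⟩
    · exact ⟨t * e, h, e⁻¹, Set.inv_mem_inv.mpr he, by group⟩
    · exact ⟨e⁻¹, Set.inv_mem_inv.mpr he, e * t, h, by group⟩
  have hsq' : ∀ t, t ∈ V → t ∉ S → t * t ∈ F → t * t = 1 * 1 := by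
    intro t htV htS htF
    by_contra hne
    exact htS ⟨htV, htF, by simpa using hne⟩
  refine ⟨{b, c, d}, by simp, ⟨b, by simp, c, by simp, d, by simp, ?_⟩, ?_, ?_⟩
  · rw [mul_assoc, e2, ← mul_assoc, hcomm b hbV' g hgV]; group
  · rintro t (rfl | rfl | rfl)
    · exact (hXE _ hbX).1
    · exact (hXE _ hcX).1
    · exact (hXE _ hdX).1
  · have hmix : ∀ t, t ∉ X → ∀ e ∈ E, (t * e ∈ F → t * e = 1 * 1) ∧
        (e * t ∈ F → e * t = 1 * 1) := fun t ht e he =>
      ⟨fun h => absurd h ((hXE t ht).2 e he).1, fun h => absurd h ((hXE t ht).2 e he).2⟩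
    have hcb' : c * b ∉ F := by rw [hcomm c hcV' b hbV']; exact hbc
    have hdb' : d * b ∉ F := by rw [hcomm d hdV b hbV']; exact hbd
    have hdc' : d * c ∉ F := by rw [hcomm d hdV c hcV']; exact hcd'
    rintro t (rfl | rfl | rfl) e (he | rfl | rfl | rfl)
    · exact hmix _ hbX e he
    · exact ⟨hsq' _ hbV' hbS, hsq' _ hbV' hbS⟩
    · exact ⟨fun h => absurd h hbc, fun h => absurd h hcb'⟩
    · exact ⟨fun h => absurd h hbd, fun h => absurd h hdb'⟩
    · exact hmix _ hcX e he
    · exact ⟨fun h => absurd h hcb', fun h => absurd h hbc⟩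
    · exact ⟨hsq' _ hcV' hcS, hsq' _ hcV' hcS⟩
    · exact ⟨fun h => absurd h hcd', fun h => absurd h hdc'⟩
    · exact hmix _ hdX e he
    · exact ⟨fun h => absurd h hdb', fun h => absurd h hbd⟩
    · exact ⟨fun h => absurd h hdc', fun h => absurd h hcd'⟩
    · exact ⟨hsq' _ hdV hdS, hsq' _ hdV hdS⟩

/-- Case 1: an infinite commutative subgroup. -/
theorem case_comm {G : Type*} [Group G] (C : Subgroup G)
    (hcomm : ∀ x ∈ C, ∀ y ∈ C, x * y = y * x) (hinf : (C : Set G).Infinite) :
    ∃ A : ℕ → Set G, AsympStrictDec A ∧ 2 ∈ prodInt A ∧ 3 ∉ prodInt A := by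
  classical
  -- the 2-torsion
  let W : Subgroup G :=
    { carrier := {v | v ∈ C ∧ v * v = 1}
      one_mem' := ⟨C.one_mem, by simp⟩
      mul_mem' := by
        rintro a b ⟨ha, ha'⟩ ⟨hb, hb'⟩
        refine ⟨C.mul_mem ha hb, ?_⟩
        have : a * b * (a * b) = a * (b * a) * b := by group
        rw [this, hcomm b hb a ha]
        have : a * (a * b) * b = (a * a) * (b * b) := by group
        rw [this, ha', hb', one_mul]
      inv_mem' := by
        rintro a ⟨ha, ha'⟩
        refine ⟨C.inv_mem ha, ?_⟩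
        rw [← mul_inv_rev, ha', inv_one] }
  by_cases hW : (W : Set G).Infinite
  · refine case_comm_aux W (fun x hx y hy => hcomm x hx.1 y hy.1) hW ?_
    intro F _
    convert Set.finite_empty
    ext v
    simp only [Set.mem_ofPred_eq, Set.mem_empty_iff_false, iff_false, not_and, not_not]
    intro hv _
    exact hv.2
  · rw [Set.not_infinite] at hW
    refine case_comm_aux C hcomm hinf ?_
    intro F hF
    have hsub : {v : G | v ∈ C ∧ v * v ∈ F ∧ v * v ≠ 1} ⊆ ⋃ y ∈ F, {v : G | v ∈ C ∧ v * v = y} := by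
      rintro v ⟨hv, hvF, _⟩
      exact Set.mem_biUnion hvF ⟨hv, rfl⟩
    refine Set.Finite.subset (hF.biUnion ?_) hsub
    intro y _
    by_cases hne : ({v : G | v ∈ C ∧ v * v = y}).Nonempty
    · obtain ⟨v0, hv0, hv0'⟩ := hne
      refine (hW.image (fun w => v0 * w)).subset ?_
      rintro v ⟨hv, hv'⟩
      refine ⟨v0⁻¹ * v, ⟨C.mul_mem (C.inv_mem hv0) hv, ?_⟩, by group⟩
      have h1 : v0⁻¹ * v * (v0⁻¹ * v) = v0⁻¹ * (v * v0⁻¹) * v := by group
      rw [h1, hcomm v hv v0⁻¹ (C.inv_mem hv0)]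
      have h2 : v0⁻¹ * (v0⁻¹ * v) * v = (v0 * v0)⁻¹ * (v * v) := by group
      rw [h2, hv0', hv']; group
    · rw [Set.not_nonempty_iff_eq_empty] at hne
      rw [hne]; exact Set.finite_empty

/-- Small sets: contained in a finite union of left cosets of subgroups of infinite index. -/
def Small {G : Type*} [Group G] (U : Set G) : Prop :=
  ∃ s : Finset (G × Subgroup G), (∀ p ∈ s, ¬ p.2.FiniteIndex) ∧
    U ⊆ ⋃ p ∈ s, p.1 • (p.2 : Set G)

theorem Small.mono {G : Type*} [Group G] {U V : Set G} (h : Small V) (hUV : U ⊆ V) : Small U := by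
  obtain ⟨s, hs, hV⟩ := h
  exact ⟨s, hs, hUV.trans hV⟩

theorem Small.union {G : Type*} [Group G] {U V : Set G} (hU : Small U) (hV : Small V) :
    Small (U ∪ V) := by
  classical
  obtain ⟨s, hs, hU⟩ := hU
  obtain ⟨t, ht, hV⟩ := hV
  refine ⟨s ∪ t, ?_, ?_⟩
  · intro p hp
    rcases Finset.mem_union.mp hp with h | h
    · exact hs p h
    · exact ht p h
  · rintro x (hx | hx)
    · obtain ⟨p, hp, hx'⟩ := Set.mem_iUnion₂.mp (hU hx)
      exact Set.mem_iUnion₂.mpr ⟨p, Finset.mem_union_left _ hp, hx'⟩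
    · obtain ⟨p, hp, hx'⟩ := Set.mem_iUnion₂.mp (hV hx)
      exact Set.mem_iUnion₂.mpr ⟨p, Finset.mem_union_right _ hp, hx'⟩

theorem small_empty {G : Type*} [Group G] : Small (∅ : Set G) := ⟨∅, by simp, by simp⟩

theorem Small.biUnion {G : Type*} [Group G] {ι : Type*} {s : Set ι} (hs : s.Finite)
    (U : ι → Set G) (h : ∀ i ∈ s, Small (U i)) : Small (⋃ i ∈ s, U i) := by
  classical
  induction s, hs using Set.Finite.induction_on with
  | empty => simpa using small_empty
  | @insert a s _ _ ih =>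
    rw [Set.biUnion_insert]
    exact (h a (Set.mem_insert _ _)).union (ih fun i hi => h i (Set.mem_insert_of_mem _ hi))

theorem small_coset {G : Type*} [Group G] (H : Subgroup G) (hH : ¬ H.FiniteIndex) (g : G) :
    Small (g • (H : Set G)) := ⟨{(g, H)}, by simpa using hH, by simp⟩

theorem not_small_univ {G : Type*} [Group G] : ¬ Small (Set.univ : Set G) := by
  rintro ⟨s, hs, hU⟩
  have hc : ⋃ p ∈ s, (p.1 : G) • (p.2 : Set G) = Set.univ := Set.eq_univ_of_univ_subset hU
  obtain ⟨p, hp, hfi⟩ := Subgroup.exists_finiteIndex_of_leftCoset_cover hc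
  exact hs p hp hfi

/-- Infinite conjugacy class. -/
def InfC {G : Type*} [Group G] (x : G) : Prop := ¬ (Subgroup.centralizer {x}).FiniteIndex

theorem mem_cent {G : Type*} [Group G] (x g : G) :
    g ∈ Subgroup.centralizer ({x} : Set G) ↔ g * x = x * g := by
  rw [Subgroup.mem_centralizer_iff]
  constructor
  · intro h; exact (h x rfl).symm
  · rintro h y hy
    rw [Set.mem_singleton_iff] at hy
    subst hy; exact h.symm

theorem small_conj {G : Type*} [Group G] (x z : G) (hx : InfC x) :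
    Small {b : G | b * x * b⁻¹ = z} := by
  by_cases hne : ({b : G | b * x * b⁻¹ = z}).Nonempty
  · obtain ⟨b0, hb0⟩ := hne
    have hb0' : b0 * x * b0⁻¹ = z := hb0
    refine (small_coset (Subgroup.centralizer {x}) hx b0).mono ?_
    intro b hb
    have hb' : b * x * b⁻¹ = z := hb
    rw [mem_leftCoset_iff, SetLike.mem_coe, mem_cent]
    have h1 : b * x * b⁻¹ = b0 * x * b0⁻¹ := hb'.trans hb0'.symm
    calc b0⁻¹ * b * x = b0⁻¹ * (b * x * b⁻¹) * b := by group
      _ = b0⁻¹ * (b0 * x * b0⁻¹) * b := by rw [h1]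
      _ = x * (b0⁻¹ * b) := by group
  · rw [Set.not_nonempty_iff_eq_empty] at hne
    rw [hne]; exact small_empty

theorem InfC.conj {G : Type*} [Group G] {x : G} (hx : InfC x) (b : G) : InfC (b⁻¹ * x * b) := by
  intro h
  apply hx
  have hcomap : (Subgroup.centralizer ({x} : Set G)).comap (MulAut.conj b).toMonoidHom =
      Subgroup.centralizer {b⁻¹ * x * b} := by
    ext g
    rw [Subgroup.mem_comap, mem_cent, mem_cent]
    simp only [MulEquiv.coe_toMonoidHom, MulAut.conj_apply]
    constructor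
    · intro h
      calc g * (b⁻¹ * x * b) = b⁻¹ * (b * g * b⁻¹ * x) * b := by group
        _ = b⁻¹ * (x * (b * g * b⁻¹)) * b := by rw [h]
        _ = b⁻¹ * x * b * g := by group
    · intro h
      calc b * g * b⁻¹ * x = b * (g * (b⁻¹ * x * b)) * b⁻¹ := by group
        _ = b * (b⁻¹ * x * b * g) * b⁻¹ := by rw [h]
        _ = x * (b * g * b⁻¹) := by group
  have hidx := Subgroup.index_comap_of_surjective (Subgroup.centralizer ({x} : Set G))
    (f := (MulAut.conj b).toMonoidHom) (MulAut.conj b).surjective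
  rw [hcomap] at hidx
  exact ⟨by rw [← hidx]; exact h.index_ne_zero⟩

theorem InfC.inv {G : Type*} [Group G] {x : G} (hx : InfC x) : InfC x⁻¹ := by
  intro h
  apply hx
  have : Subgroup.centralizer ({x⁻¹} : Set G) = Subgroup.centralizer {x} := by
    ext g
    rw [mem_cent, mem_cent]
    constructor
    · intro h
      calc g * x = x * (x⁻¹ * g) * x := by group
        _ = x * (g * x⁻¹) * x := by rw [h]
        _ = x * g := by group
    · intro h
      calc g * x⁻¹ = x⁻¹ * (x * g) * x⁻¹ := by group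
        _ = x⁻¹ * (g * x) * x⁻¹ := by rw [h]
        _ = x⁻¹ * g := by group
  rwa [this] at h

theorem small_conj' {G : Type*} [Group G] (x z : G) (hx : InfC x) :
    Small {b : G | b⁻¹ * x * b = z} := by
  by_cases hne : ({b : G | b⁻¹ * x * b = z}).Nonempty
  · obtain ⟨b0, hb0⟩ := hne
    have hb0' : b0⁻¹ * x * b0 = z := hb0
    have hz : InfC z := hb0' ▸ hx.conj b0
    refine (small_conj z x hz).mono ?_
    intro b hb
    have hb' : b⁻¹ * x * b = z := hb
    show b * z * b⁻¹ = x
    rw [← hb']; group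
  · rw [Set.not_nonempty_iff_eq_empty] at hne
    rw [hne]; exact small_empty

theorem Small.mul_right {G : Type*} [Group G] {U : Set G} (hU : Small U) (x : G) :
    Small {b : G | b * x ∈ U} := by
  classical
  obtain ⟨s, hs, hU⟩ := hU
  refine (Small.biUnion (G := G) (s := (s : Set (G × Subgroup G))) s.finite_toSet
    (fun p => {b : G | b * x ∈ p.1 • (p.2 : Set G)}) ?_).mono ?_
  · intro p hp
    have hcomap : ¬ (p.2.comap (MulAut.conj x⁻¹).toMonoidHom).FiniteIndex := by
      intro h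
      apply hs p hp
      have hidx := Subgroup.index_comap_of_surjective p.2
        (f := (MulAut.conj x⁻¹).toMonoidHom) (MulAut.conj x⁻¹).surjective
      exact ⟨by rw [← hidx]; exact h.index_ne_zero⟩
    refine (small_coset _ hcomap (p.1 * x⁻¹)).mono ?_
    intro b hb
    have hb' : b * x ∈ p.1 • (p.2 : Set G) := hb
    rw [mem_leftCoset_iff, SetLike.mem_coe] at hb' ⊢
    rw [Subgroup.mem_comap]
    simp only [MulEquiv.coe_toMonoidHom, MulAut.conj_apply]
    have : x⁻¹ * ((p.1 * x⁻¹)⁻¹ * b) * x⁻¹⁻¹ = p.1⁻¹ * (b * x) := by group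
    rwa [this]
  · intro b hb
    obtain ⟨p, hp, hx'⟩ := Set.mem_iUnion₂.mp (hU hb)
    exact Set.mem_iUnion₂.mpr ⟨p, hp, hx'⟩

theorem small_finite {G : Type*} [Group G] (H : Subgroup G) (hH : ¬ H.FiniteIndex) (F : Set G)
    (hF : F.Finite) : Small F := by
  refine (Small.biUnion hF (fun i => i • (H : Set G)) (fun i _ => small_coset H hH i)).mono ?_
  intro x hx
  refine Set.mem_biUnion hx ?_
  rw [mem_leftCoset_iff]; simp [H.one_mem]

/-- Case 2: an element with infinite conjugacy class which is not an involution. -/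
theorem case_infC {G : Type*} [Group G] (f : G) (hf : InfC f) (hf2 : f * f ≠ 1) :
    ∃ A : ℕ → Set G, AsympStrictDec A ∧ 2 ∈ prodInt A ∧ 3 ∉ prodInt A := by
  classical
  refine construct f f ?_ ?_
  · intro h
    apply hf2
    have : f * 1 = f * (f * f) := by rw [mul_one, ← mul_assoc]; exact h
    exact (mul_left_cancel this).symm
  intro E F hE hF
  -- the set of bad elements apart from the squares
  set X : Set G := F ∪ (F * E⁻¹) ∪ (E⁻¹ * F) with hX
  have hXfin : X.Finite := (hF.union (hF.mul hE.inv)).union (hE.inv.mul hF)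
  set X' : Set G := X ∪ ({f} * X⁻¹ * {f⁻¹}) with hX'
  have hX'fin : X'.Finite :=
    hXfin.union (((Set.finite_singleton _).mul hXfin.inv).mul (Set.finite_singleton _))
  set F' : Set G := F ∪ ({f} * F⁻¹ * {f⁻¹}) with hF'
  have hF'fin : F'.Finite :=
    hF.union (((Set.finite_singleton _).mul hF.inv).mul (Set.finite_singleton _))
  set B : Set G := X' ∪ (⋃ y ∈ F, {b : G | b * f⁻¹ * b⁻¹ = y * f⁻¹}) ∪
    (⋃ y ∈ F, {b : G | b⁻¹ * f * b = f * y}) with hB
  have hBsmall : Small B :=
    ((small_finite _ hf X' hX'fin).union (Small.biUnion hF _ fun y _ =>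
      small_conj _ _ hf.inv)).union (Small.biUnion hF _ fun y _ => small_conj' _ _ hf)
  -- there is a good `b`
  obtain ⟨b, hbB, hbF⟩ : ∃ b, b ∉ B ∧ b * b ∉ F' := by
    by_contra hno
    push Not at hno
    -- every element has a finite class
    have hY : (F' * {f⁻¹} * F'⁻¹).Finite :=
      (hF'fin.mul (Set.finite_singleton _)).mul hF'fin.inv
    have hcover : (Set.univ : Set G) ⊆ (B ∪ {b | b * f ∈ B}) ∪
        ⋃ y ∈ (F' * {f⁻¹} * F'⁻¹), {b : G | b * f * b⁻¹ = y} := by
      intro b _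
      by_cases h1 : b ∈ B
      · exact Or.inl (Or.inl h1)
      by_cases h2 : b * f ∈ B
      · exact Or.inl (Or.inr h2)
      right
      have h3 := hno b h1
      have h4 := hno (b * f) h2
      refine Set.mem_biUnion (x := b * f * b⁻¹) ?_ rfl
      refine ⟨(b * f * (b * f)) * f⁻¹, ⟨_, h4, f⁻¹, rfl, rfl⟩, (b * b)⁻¹,
        Set.inv_mem_inv.mpr h3, ?_⟩
      group
    have hsm : Small ((B ∪ {b | b * f ∈ B}) ∪
        ⋃ y ∈ (F' * {f⁻¹} * F'⁻¹), {b : G | b * f * b⁻¹ = y}) :=
      (hBsmall.union (hBsmall.mul_right f)).union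
        (Small.biUnion hY _ fun y _ => small_conj _ _ hf)
    exact not_small_univ (hsm.mono hcover)
  set c : G := f⁻¹ * b⁻¹ * f with hc
  simp only [hB, Set.mem_union, not_or] at hbB
  obtain ⟨⟨hbX', hb1⟩, hb2⟩ := hbB
  have hbX : b ∉ X := fun h => hbX' (Or.inl h)
  have hcX : c ∉ X := by
    intro h
    apply hbX'
    refine Or.inr ⟨f * c⁻¹, ⟨f, rfl, c⁻¹, Set.inv_mem_inv.mpr h, rfl⟩, f⁻¹, rfl, ?_⟩
    rw [hc]; group
  have hXE : ∀ t, t ∉ X → t ∉ F ∧ ∀ e ∈ E, t * e ∉ F ∧ e * t ∉ F := by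
    intro t ht
    refine ⟨fun h => ht (Or.inl (Or.inl h)), fun e he => ⟨fun h => ht (Or.inl (Or.inr ?_)),
      fun h => ht (Or.inr ?_)⟩⟩
    · exact ⟨t * e, h, e⁻¹, Set.inv_mem_inv.mpr he, by group⟩
    · exact ⟨e⁻¹, Set.inv_mem_inv.mpr he, e * t, h, by group⟩
  have hbb : b * b ∉ F := fun h => hbF (Or.inl h)
  have hcc : c * c ∉ F := by
    intro h
    apply hbF
    refine Or.inr ⟨f * (c * c)⁻¹, ⟨f, rfl, (c * c)⁻¹, Set.inv_mem_inv.mpr h, rfl⟩, f⁻¹, rfl, ?_⟩
    show f * (c * c)⁻¹ * f⁻¹ = b * b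
    rw [hc]; simp [mul_assoc]
  have hbc : b * c ∉ F := by
    intro h
    apply hb1
    refine Set.mem_biUnion h ?_
    show b * f⁻¹ * b⁻¹ = b * c * f⁻¹
    rw [hc]; group
  have hcb : c * b ∉ F := by
    intro h
    apply hb2
    refine Set.mem_biUnion h ?_
    show b⁻¹ * f * b = f * (c * b)
    rw [hc]; group
  have hmix : ∀ t, t ∉ X → ∀ e ∈ E, (t * e ∈ F → t * e = f * f) ∧
      (e * t ∈ F → e * t = f * f) := fun t ht e he =>
    ⟨fun h => absurd h ((hXE t ht).2 e he).1, fun h => absurd h ((hXE t ht).2 e he).2⟩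
  refine ⟨{b, c}, by simp, ⟨b, by simp, f, by simp, c, by simp, ?_⟩, ?_, ?_⟩
  · rw [hc]; group
  · rintro t (rfl | rfl)
    · exact (hXE _ hbX).1
    · exact (hXE _ hcX).1
  · rintro t (rfl | rfl) e (he | rfl | rfl)
    · exact hmix _ hbX e he
    · exact ⟨fun h => absurd h hbb, fun h => absurd h hbb⟩
    · exact ⟨fun h => absurd h hbc, fun h => absurd h hcb⟩
    · exact hmix _ hcX e he
    · exact ⟨fun h => absurd h hcb, fun h => absurd h hbc⟩
    · exact ⟨fun h => absurd h hcc, fun h => absurd h hcc⟩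

/-- An infinite group in which no commutative subgroup is infinite has an element with infinite
conjugacy class. -/
theorem exists_infC {G : Type*} [Group G] [Infinite G]
    (hno : ∀ C : Subgroup G, (∀ x ∈ C, ∀ y ∈ C, x * y = y * x) → (C : Set G).Finite) :
    ∃ x : G, InfC x := by
  classical
  by_contra hfc
  simp only [InfC, not_exists, not_not] at hfc
  -- a maximal commuting subset
  obtain ⟨M, hM⟩ := zorn_subset {S : Set G | ∀ x ∈ S, ∀ y ∈ S, x * y = y * x} (by
    intro c hc hchain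
    refine ⟨⋃₀ c, ?_, fun s hs => Set.subset_sUnion_of_mem hs⟩
    rintro x ⟨s, hs, hxs⟩ y ⟨t, ht, hyt⟩
    rcases hchain.total hs ht with h | h
    · exact hc ht x (h hxs) y hyt
    · exact hc hs x hxs y (h hyt))
  have hMc : ∀ x ∈ M, ∀ y ∈ M, x * y = y * x := hM.prop
  have hMmax : ∀ S : Set G, (∀ x ∈ S, ∀ y ∈ S, x * y = y * x) → M ⊆ S → S ⊆ M :=
    fun S hS h => hM.le_of_ge hS h
  have hclc : ∀ x ∈ Subgroup.closure M, ∀ y ∈ Subgroup.closure M, x * y = y * x := by
    intro x hx y hy
    have h1 : Subgroup.closure M ≤ Subgroup.centralizer (Subgroup.closure M : Set G) := by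
      have h2 : Subgroup.closure M ≤ Subgroup.centralizer M := by
        rw [Subgroup.closure_le]
        intro z hz
        rw [SetLike.mem_coe, Subgroup.mem_centralizer_iff]
        intro w hw
        exact hMc w hw z hz
      rwa [Subgroup.centralizer_closure]
    exact ((Subgroup.mem_centralizer_iff.mp (h1 hx)) y hy).symm
  have hMfin : M.Finite := (hno _ hclc).subset Subgroup.subset_closure
  -- the centralizer of `M` has finite index
  have hcent : (⨅ x ∈ M, Subgroup.centralizer ({x} : Set G)).FiniteIndex := by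
    have := hMfin.to_subtype
    rw [iInf_subtype']
    exact Subgroup.finiteIndex_iInf (fun x => hfc x)
  have hcentinf : ((⨅ x ∈ M, Subgroup.centralizer ({x} : Set G) : Subgroup G) : Set G).Infinite := by
    intro hfin
    set K := (⨅ x ∈ M, Subgroup.centralizer ({x} : Set G) : Subgroup G) with hK
    have h1 : Finite K := hfin
    have h2 : Finite (G ⧸ K) := Subgroup.finite_quotient_of_finiteIndex
    have h3 : Finite G := Finite.of_equiv _ (Subgroup.groupEquivQuotientProdSubgroup (s := K)).symm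
    exact not_finite G
  obtain ⟨z, hzK, hzM⟩ := (hcentinf.sdiff hMfin).nonempty
  apply hzM
  refine hMmax (insert z M) ?_ (Set.subset_insert _ _) (Set.mem_insert _ _)
  have hz : ∀ x ∈ M, z * x = x * z := by
    intro x hx
    have : z ∈ Subgroup.centralizer ({x} : Set G) := by
      have h1 := hzK
      rw [SetLike.mem_coe, Subgroup.mem_iInf] at h1
      have h2 := h1 x
      rw [Subgroup.mem_iInf] at h2
      exact h2 hx
    exact (mem_cent x z).mp this
  rintro x (rfl | hx) y (rfl | hy)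
  · rfl
  · exact hz y hy
  · exact (hz x hx).symm
  · exact hMc x hx y hy

theorem exists_good {G : Type*} [Group G] [Infinite G]
    (hno : ∀ C : Subgroup G, (∀ x ∈ C, ∀ y ∈ C, x * y = y * x) → (C : Set G).Finite) :
    ∃ f : G, InfC f ∧ f * f ≠ 1 := by
  classical
  by_contra hbad
  push Not at hbad
  obtain ⟨x, hx⟩ := exists_infC hno
  -- the FC-centre
  let K : Subgroup G :=
    { carrier := {k | (Subgroup.centralizer ({k} : Set G)).FiniteIndex}
      one_mem' := by
        show (Subgroup.centralizer ({1} : Set G)).FiniteIndex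
        have : Subgroup.centralizer ({1} : Set G) = ⊤ := by
          ext g; rw [mem_cent]; simp
        rw [this]; infer_instance
      mul_mem' := by
        intro a b ha hb
        have ha' : (Subgroup.centralizer ({a} : Set G)).FiniteIndex := ha
        have hb' : (Subgroup.centralizer ({b} : Set G)).FiniteIndex := hb
        show (Subgroup.centralizer ({a * b} : Set G)).FiniteIndex
        have hle : Subgroup.centralizer ({a} : Set G) ⊓ Subgroup.centralizer ({b} : Set G) ≤
            Subgroup.centralizer ({a * b} : Set G) := by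
          rintro g ⟨h1', h2'⟩
          have h1 : g * a = a * g := (mem_cent a g).mp h1'
          have h2 : g * b = b * g := (mem_cent b g).mp h2'
          rw [mem_cent]
          calc g * (a * b) = g * a * b := by group
            _ = a * (g * b) := by rw [h1]; group
            _ = a * b * g := by rw [h2]; group
        exact Subgroup.finiteIndex_of_le hle
      inv_mem' := by
        intro a ha
        by_contra h
        have h2 : InfC a⁻¹ := h
        have h3 := h2.inv
        rw [inv_inv] at h3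
        exact h3 ha }
  have hKmem : ∀ k, k ∈ K ↔ ¬ InfC k := fun k => by
    constructor
    · intro h h2; exact h2 h
    · intro h; by_contra h2; exact h h2
  have hx2 : x * x = 1 := hbad x hx
  have hxinv : x⁻¹ = x := inv_eq_of_mul_eq_one_right hx2
  have hxK : x ∉ K := fun h => (hKmem x).mp h hx
  have hinvert : ∀ k ∈ K, x * k * x = k⁻¹ := by
    intro k hk
    have h1 : x * k ∉ K := fun h => hxK (by simpa using K.mul_mem h (K.inv_mem hk))
    have h2 : InfC (x * k) := by
      by_contra h; exact h1 ((hKmem _).mpr h)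
    have h3 := hbad _ h2
    have h4 : x * k * x * k = 1 := by rw [← h3]; group
    exact (inv_eq_of_mul_eq_one_left h4).symm
  have hKc : ∀ k ∈ K, ∀ l ∈ K, k * l = l * k := by
    intro k hk l hl
    have h1 := hinvert (k * l) (K.mul_mem hk hl)
    have h2 : x * (k * l) * x = (x * k * x) * (x * l * x) := by
      have : (x * k * x) * (x * l * x) = x * k * (x * x) * l * x := by group
      rw [this, hx2]; group
    rw [h2, hinvert k hk, hinvert l hl] at h1
    have h3 : (l * k)⁻¹ = (k * l)⁻¹ := by rw [← h1]; group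
    exact (inv_injective h3).symm
  have hKfin : (K : Set G).Finite := hno K hKc
  -- everything outside a finite set commutes with `x`
  have hcov : (Set.univ : Set G) ⊆
      (1 : G) • (Subgroup.centralizer ({x} : Set G) : Set G) ∪ ((K : Set G) ∪ (({x} : Set G) * K)) := by
    intro y _
    by_cases hyK : y ∈ K
    · exact Or.inr (Or.inl hyK)
    by_cases hxy : x * y ∈ K
    · refine Or.inr (Or.inr ⟨x, rfl, x * y, hxy, ?_⟩)
      show x * (x * y) = y
      rw [← mul_assoc, hx2, one_mul]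
    left
    have hy : InfC y := by by_contra h; exact hyK ((hKmem _).mpr h)
    have hxy' : InfC (x * y) := by by_contra h; exact hxy ((hKmem _).mpr h)
    have h1 := hbad _ hy
    have h2 := hbad _ hxy'
    rw [one_smul, SetLike.mem_coe, mem_cent]
    calc y * x = (x * x) * (y * x) * (y * y) := by rw [hx2, h1]; group
      _ = x * (x * y * (x * y)) * y := by group
      _ = x * y := by rw [h2]; group
  refine not_small_univ ((Small.union (small_coset _ hx 1) ?_).mono hcov)
  exact small_finite _ hx _ (hKfin.union ((Set.finite_singleton x).mul hKfin))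

/-- Every infinite group admits a sequence with `2 ∈ H` and `3 ∉ H`. -/
theorem main (G : Type*) [Group G] [Infinite G] :
    ∃ A : ℕ → Set G, AsympStrictDec A ∧ 2 ∈ prodInt A ∧ 3 ∉ prodInt A := by
  by_cases h : ∃ C : Subgroup G, (∀ x ∈ C, ∀ y ∈ C, x * y = y * x) ∧ (C : Set G).Infinite
  · obtain ⟨C, hC, hinf⟩ := h
    exact case_comm C hC hinf
  · push Not at h
    obtain ⟨f, hf, hf2⟩ := exists_good (G := G) (fun C hC => h C hC)
    exact case_infC f hf hf2

/-- **Main theorem.** For every infinite group `G` (in particular for every infinite torsion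
group) the family `H*_ℕ(G)` contains a set `X ≠ {1}`, `X ≠ {1, 2, 3, …}`; in fact one with
`2 ∈ X` and `3 ∉ X`. -/
theorem result (G : Type*) [Group G] [Infinite G] :
    ∃ X ∈ HStar G, 2 ∈ X ∧ 3 ∉ X ∧ X ≠ {1} ∧ X ≠ {h : ℕ | 1 ≤ h} := by
  obtain ⟨A, hA, h2, h3⟩ := main G
  refine ⟨prodInt A, ⟨A, hA, rfl⟩, h2, h3, ?_, ?_⟩
  · intro h
    rw [h, Set.mem_singleton_iff] at h2
    omega
  · intro h
    apply h3
    rw [h]
    simp

end Pool.Agent.Results.MP_1adc52_al.TwoNotThree
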